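import Pool.Agent.helper33.SP.SpecC1S

/-!
# Project sp, module UJ12: four arms through two gates
-/

set_option linter.all false

namespace TP

open DP MeasureTheory

theorem UJ12_four {c c' : V → Bool} {x : V} {m n : ℕ} (h : ∀ v ∈ ann x m n, c v = c' v)
    (h4 : four c x m n) : four c' x m n := by
  obtain ⟨u, hu, v, hv, ⟨p, hp, h1⟩, ⟨q, hq, h2⟩, h3⟩ := h4
  exact ⟨u, hu, v, hv, ⟨p, hp, (Conn.congr h).1 h1⟩, ⟨q, hq, (Conn.congr h).1 h2⟩,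
    fun h' => h3 ((Conn.congr h).2 h')⟩

theorem UJ12_three {c c' : V → Bool} {x : V} {m n : ℕ} (h : ∀ v ∈ ann x m n, c v = c' v)
    (h3 : Three c x m n) : Three c' x m n := by
  obtain ⟨u, hu, v, hv, w, hw, ⟨p, hp, h1⟩, ⟨q, hq, h2⟩, ⟨r, hr, h4⟩, h5, h6, h7⟩ := h3
  exact ⟨u, hu, v, hv, w, hw, ⟨p, hp, (Conn.congr h).1 h1⟩, ⟨q, hq, (Conn.congr h).1 h2⟩,
    ⟨r, hr, (Conn.congr h).1 h4⟩, fun h' => h5 ((Conn.congr h).2 h'),
    fun h' => h6 ((Conn.congr h).2 h'), fun h' => h7 ((Conn.congr h).2 h')⟩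

theorem UJ12_gate {c c' : V → Bool} {x : V} {m n : ℕ} (h : ∀ v ∈ ann x m n, c v = c' v)
    (hg : Gate c x m n) : Gate c' x m n :=
  ⟨UJ12_four h hg.1, fun h3 => hg.2 (UJ12_three (fun v hv => (h v hv).symm) h3)⟩

theorem UJ12_hb {c c' : V → Bool} {x : V} {m n : ℕ} (h : ∀ v ∈ box x n, c v = c' v)
    (hh : hb c x m n) : hb c' x m n := by
  have h' : ∀ v ∈ ann x m n, c v = c' v := fun v hv => h v hv.2
  obtain ⟨u, hu, v, hv, ⟨p, hp, h1⟩, ⟨q, hq, h2⟩, h3, h4⟩ := hh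
  exact ⟨u, hu, v, hv, ⟨p, hp, (Conn.congr h').1 h1⟩, ⟨q, hq, (Conn.congr h').1 h2⟩,
    fun h'' => h3 ((Conn.congr h').2 h''), (Conn.congr h).1 h4⟩

theorem UJ12 (h9 : UJ9_stmt) (h10 : UJ10_stmt) : UJ12_stmt := by
  intro c c' R x s t a n m n' ha han hnm hmn hg1 hg2 h4 h4' hcc hR hs ht
  have e1 : ∀ v ∈ ann x a n, c v = c' v := fun v hv => hcc v (Or.inl hv.2)
  have e2 : ∀ v ∈ ann x m n', c v = c' v := fun v hv => hcc v (Or.inr hv.1)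
  have e3 : ∀ v ∈ box x n, c v = c' v := fun v hv => hcc v (Or.inl hv)
  have hg1' := UJ12_gate e1 hg1
  have hg2' := UJ12_gate e2 hg2
  have b1 := h9 c x a n m n' ha han hnm hmn hg1 hg2 h4
  have b2 := h9 c' x a n m n' ha han hnm hmn hg1' hg2' h4'
  have b3 : hb c x a n ↔ hb c' x a n :=
    ⟨UJ12_hb e3, UJ12_hb fun v hv => (e3 v hv).symm⟩
  exact h10 c c' R x s t m n' (by omega) hmn hg2 (fun v hv => hcc v (Or.inr hv))
    (b1.symm.trans (b3.trans b2)) hR hs ht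

end TP
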