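import Pool.Agent.helper49.SP.SpecAS

namespace TP

open DP MeasureTheory

theorem AC1_prob : IsProbabilityMeasure P1 := by
  unfold P1
  infer_instance

theorem AC1_PS_mono (i : ℕ) (A B : Set V → Prop) (h : ∀ X, A X → B X) : PS i A ≤ PS i B := by
  unfold PS PSF
  refine Finset.sum_le_sum fun T _ => ?_
  by_cases hA : A T
  · rw [if_pos hA, if_pos (h _ hA)]
  · rw [if_neg hA]
    split_ifs
    · positivity
    · exact le_rfl

theorem AC1_PP_union (i : ℕ) (Λ : Finset ℕ) (A : Set V → Prop) (B : ℕ → Set V → Prop)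
    (h : ∀ X, A X → ∃ l ∈ Λ, B l X) : PPv i A ≤ ∑ l ∈ Λ, PPv i (B l) := by
  have := AC1_prob
  unfold PPv Pr
  calc P1.real {b | A (PV i b)} ≤ P1.real (⋃ l ∈ Λ, {b | B l (PV i b)}) := by
        refine measureReal_mono ?_ (measure_ne_top _ _)
        intro b hb
        obtain ⟨l, hl, hB⟩ := h _ hb
        exact Set.mem_biUnion hl hB
    _ ≤ ∑ l ∈ Λ, P1.real {b | B l (PV i b)} := measureReal_biUnion_finset_le _ _

theorem AC1 : AC1_stmt := by
  intro hU1 hS1 hU2 hQA hF1 hF2 δ hδ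
  obtain ⟨C1, n1, hC1, hU1⟩ := hU1
  obtain ⟨C2, c, n2, hC2, hc, hS1⟩ := hS1 hU2
  obtain ⟨hQ1, hQ2, C3, n3, hC3, hQ3, -⟩ := hQA
  set L : ℝ := max 1 (Real.log (C2 / δ) / c) with hL
  have hL1 : 1 ≤ L := le_max_left _ _
  have hL0 : 0 < L := by linarith
  set K : ℝ := C1 * (L + 1) / δ with hK
  have hK0 : 0 < K := by positivity
  have hexp : C2 * Real.exp (-(c * L)) ≤ δ := by
    have h1 : Real.log (C2 / δ) ≤ c * L := by
      have h2 : Real.log (C2 / δ) / c ≤ L := le_max_right _ _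
      rw [div_le_iff₀ hc] at h2
      linarith
    have h3 : Real.exp (-(c * L)) ≤ Real.exp (-Real.log (C2 / δ)) := Real.exp_le_exp.2 (by linarith)
    rw [Real.exp_neg, Real.exp_neg, Real.exp_log (by positivity)] at h3
    rw [Real.exp_neg]
    calc C2 * (Real.exp (c * L))⁻¹ ≤ C2 * (C2 / δ)⁻¹ := by gcongr
      _ = δ := by field_simp
  refine ⟨L, K, n1 + n2 + n3 + 2, hL0, hK0, ?_⟩
  intro i k t k₁ m s Λ z x ht hm hk1 hs hΛ hx hpar hbulk h6 hsum1 hsum2
  have hu : 1 ≤ 2 ^ t := Nat.one_le_two_pow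
  have ha4t : 0 ≤ a4 t (i - k) := (hQ1 _ _).1
  have hne : Λ.Nonempty := by
    rw [Finset.nonempty_iff_ne_empty]
    rintro rfl
    rw [Finset.sum_empty] at hsum1
    linarith
  have hm2 : 2 ≤ m := by omega
  -- arithmetic of the scales
  have hr : ∀ l : ℕ, 2 ≤ 2 ^ (k₁ + l * (m + 3 * s)) := by
    intro l
    calc 2 = 2 ^ 1 := rfl
      _ ≤ 2 ^ (k₁ + l * (m + 3 * s)) := Nat.pow_le_pow_right (by norm_num) (by omega)
  have hR : ∀ l : ℕ, 2 * 2 ^ (k₁ + l * (m + 3 * s)) + 2 ≤ 2 ^ (k₁ + l * (m + 3 * s) + m) := by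
    intro l
    have h1 := hr l
    have h2 : 2 ^ (k₁ + l * (m + 3 * s) + 2) ≤ 2 ^ (k₁ + l * (m + 3 * s) + m) :=
      Nat.pow_le_pow_right (by norm_num) (by omega)
    have h3 : 2 ^ (k₁ + l * (m + 3 * s) + 2) = 4 * 2 ^ (k₁ + l * (m + 3 * s)) := by ring
    omega
  have he1 : ∀ l : ℕ, 2 ^ (k₁ + l * (m + 3 * s)) * 2 ^ t = 2 ^ pl t k₁ m s l := by
    intro l
    rw [← pow_add]
    congr 1
    unfold pl
    ring
  have he2 : ∀ l : ℕ, 2 ^ (k₁ + l * (m + 3 * s) + m) * 2 ^ t = 2 ^ (pl t k₁ m s l + m) := by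
    intro l
    rw [← pow_add]
    congr 1
    unfold pl
    ring
  have hplt : ∀ l : ℕ, t + k₁ ≤ pl t k₁ m s l := by
    intro l; unfold pl; omega
  constructor
  · -- the spectral sample
    refine (AC1_PS_mono i _ (fun X => (∃ v ∈ X, sd x v ≤ 2 ^ t) ∧
        ∀ l ∈ Λ, ∃ v ∈ X, 2 ^ pl t k₁ m s l < sd x v ∧ sd x v < 2 ^ (pl t k₁ m s l + m)) ?_).trans ?_
    · rintro X ⟨h1, h2⟩
      refine ⟨h1, fun l hl => ?_⟩
      unfold psiI at h2
      rw [((hF1 (2 ^ t) X).2.1 _).1] at h2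
      push Not at h2
      have h3 := h2 _ (List.mem_map.2 ⟨l, Finset.mem_toList.2 hl, rfl⟩)
      rw [((hF2 (2 ^ t) X z x hu hx).2.2 _ _ (hr l) (hR l)).1] at h3
      push Not at h3
      obtain ⟨v, hv, hv1, hv2⟩ := h3
      rw [he1] at hv1
      rw [he2] at hv2
      exact ⟨v, hv, hv1, hv2⟩
    · refine (hS1 i k t k₁ m s Λ x hne (by omega) (by omega) (by omega) (by omega) hΛ hpar hbulk).trans ?_
      gcongr
      refine le_trans ?_ hexp
      gcongr
  · -- the pivotal set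
    refine (AC1_PP_union i Λ _ (fun l X => (∃ v ∈ X, sd x v ≤ 2 ^ (t + 1)) ∧
      ∀ v ∈ X, ¬ (2 ^ (pl t k₁ m s l + 1) ≤ sd x v + 1 ∧
        sd x v ≤ 2 ^ (pl t k₁ m s l + m - 1) + 1)) ?_).trans ?_
    · rintro X ⟨⟨v, hv, hv1⟩, h2⟩
      unfold psiI at h2
      rw [((hF1 (2 ^ t) X).2.1 _).2] at h2
      obtain ⟨φ, hφ, h3⟩ := h2
      obtain ⟨l, hl, rfl⟩ := List.mem_map.1 hφ
      have hl' : l ∈ Λ := Finset.mem_toList.1 hl
      have h4 := ((hF2 (2 ^ t) X z x hu hx).2.2 _ _ (hr l) (hR l)).2 h3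
      refine ⟨l, hl', ⟨v, hv, by rw [pow_succ]; omega⟩, fun w hw hcon => h4 w hw ⟨?_, ?_⟩⟩
      · rw [mul_assoc, he1]
        have h5 := hcon.1
        rw [pow_succ] at h5
        omega
      · rw [he2]
        have h5 := hcon.2
        have h6 : 2 ^ (pl t k₁ m s l + m) = 2 * 2 ^ (pl t k₁ m s l + m - 1) := by
          rw [← pow_succ']
          congr 1
          omega
        omega
    · have hb : ∀ l ∈ Λ, PPv i (fun X => (∃ v ∈ X, sd x v ≤ 2 ^ (t + 1)) ∧
          ∀ v ∈ X, ¬ (2 ^ (pl t k₁ m s l + 1) ≤ sd x v + 1 ∧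
            sd x v ≤ 2 ^ (pl t k₁ m s l + m - 1) + 1)) ≤
          C1 / K * a4 t (i - k) * a4 (pl t k₁ m s l) (pl t k₁ m s l + m) := by
        intro l hl
        have hpl := hplt l
        have hi := hΛ l hl
        have hpl1 : pl t k₁ m s (l + 1) = pl t k₁ m s l + m + 3 * s := by
          unfold pl; ring
        refine (hU1 i k t (pl t k₁ m s l) m x (by omega) (by omega) (by omega) (by omega) hpar
          hbulk).trans ?_
        have hpos : 0 < a4 (pl t k₁ m s l) (pl t k₁ m s l + m) := by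
          have h1 := hQ3 (pl t k₁ m s l) m (by omega)
          rcases (hQ1 (pl t k₁ m s l) (pl t k₁ m s l + m)).1.lt_or_eq with h2 | h2
          · exact h2
          · rw [← h2, zero_mul] at h1; linarith
        have h7 : a6 (pl t k₁ m s l + 1) (pl t k₁ m s l + m - 1) /
            a4 (pl t k₁ m s l) (pl t k₁ m s l + m) ≤
            a4 (pl t k₁ m s l) (pl t k₁ m s l + m) / K := by
          rw [div_le_iff₀ hpos]
          refine (h6 l hl).trans (le_of_eq ?_)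
          ring
        calc C1 * (a6 (pl t k₁ m s l + 1) (pl t k₁ m s l + m - 1) /
              a4 (pl t k₁ m s l) (pl t k₁ m s l + m)) * a4 t (i - k)
            ≤ C1 * (a4 (pl t k₁ m s l) (pl t k₁ m s l + m) / K) * a4 t (i - k) := by gcongr
          _ = C1 / K * a4 t (i - k) * a4 (pl t k₁ m s l) (pl t k₁ m s l + m) := by ring
      refine (Finset.sum_le_sum hb).trans ?_
      rw [← Finset.mul_sum]
      calc C1 / K * a4 t (i - k) * ∑ l ∈ Λ, a4 (pl t k₁ m s l) (pl t k₁ m s l + m)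
          ≤ C1 / K * a4 t (i - k) * (L + 1) := by gcongr
        _ = δ * a4 t (i - k) := by
          rw [hK]
          field_simp

end TP
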