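import Pool.Agent.helper95.SP.SpecCH
import Pool.Agent.helper95.DP.GL

/-!
# Project sp, module KGD: deterministic gluing with data at the inner end
-/

set_option linter.all false

namespace TP.K

open DP MeasureTheory

/-- One arm through the loops and the chain, with data at the inner end. -/
theorem GD_arm (hLH : LH_stmt) (hLC : LC_stmt) (hCH1 : CH1_stmt) (c : V → Bool) (k : Bool) (j : ℕ)
    (x : V) (n M l : ℕ) (hM : 1 ≤ M) (hn : 4096 * M ≤ n) (N : Set V) (hN : N ⊆ box x (512 * M))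
    (p u q w : V) (hp : sd x p ≤ 512 * M) (hw : sd x w = n)
    (hu : sd (zpt x (1024 * M) l) u ≤ 16 * M) (hq : sd (zpt x (2048 * M) l) q ≤ 32 * M)
    (hpu : Conn c k (HS true x (1024 * M) \ (N ∪ opp j (zpt x (1024 * M)) (1024 * M / 8) k)) p u)
    (hqw : Conn c k (HS true x n \ ((Dmark j x (2048 * M)).N k ∪ opp j (zpt x n) (n / 8) k)) q w)
    (h1 : ∃ S, Loop c k (zpt x (1024 * M) l) (32 * M) S)
    (h2 : ∃ S, Loop c k (zpt x (2048 * M) l) (64 * M) S)
    (h3 : Full c k M ((List.range (2 ^ 9 + 1)).map fun t => zpt x (1024 * M + 2 * t * M) l)) :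
    Conn c k (HS true x n \ (N ∪ opp j (zpt x n) (n / 8) k)) p w := by
  obtain ⟨S₁, hS₁⟩ := h1
  obtain ⟨S₂, hS₂⟩ := h2
  have hne : ((List.range (2 ^ 9 + 1)).map fun t => zpt x (1024 * M + 2 * t * M) l) ≠ [] := by
    intro h
    have := congrArg List.length h
    simp at this
  obtain ⟨U, hU1, hU2, hU3⟩ := hCH1 c k M _ h3 (GL_chain x M l) hne
  have g0 : zpt x (1024 * M) l ∈ (List.range (2 ^ 9 + 1)).map fun t =>
      zpt x (1024 * M + 2 * t * M) l :=
    List.mem_map.2 ⟨0, List.mem_range.2 (by norm_num), by simp⟩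
  have g1 : zpt x (2048 * M) l ∈ (List.range (2 ^ 9 + 1)).map fun t =>
      zpt x (1024 * M + 2 * t * M) l :=
    List.mem_map.2 ⟨512, List.mem_range.2 (by norm_num), by
      show zpt x (1024 * M + 2 * 512 * M) l = _
      congr 1; ring⟩
  obtain ⟨T₀, hT₀, hT₀U⟩ := hU3 _ g0
  obtain ⟨T₁, hT₁, hT₁U⟩ := hU3 _ g1
  obtain ⟨a, ha⟩ := GL_ne hT₀
  obtain ⟨b, hb⟩ := GL_ne hT₁
  have a1 := GL_sub hT₀ a ha
  have b1 := GL_sub hT₁ b hb
  have hab : DP.Con U a b := hU2 a (hT₀U ha) b (hT₁U hb)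
  have d1 := SE1_sd_zpt x (1024 * M) l
  have d2 := SE1_sd_zpt x (2048 * M) l
  -- distances
  have t1 := sd_triangle x p (zpt x (1024 * M) l)
  have t1' := sd_triangle x (zpt x (1024 * M) l) p
  rw [sd_comm p] at t1
  have t2 := sd_triangle x b (zpt x (1024 * M) l)
  rw [sd_comm b] at t2
  have t2' := sd_triangle x (zpt x (2048 * M) l) b
  have t2'' := sd_triangle x b (zpt x (2048 * M) l)
  rw [sd_comm b] at t2''
  have t6 := sd_triangle x (zpt x (1024 * M) l) b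
  have t3 := sd_triangle x (zpt x (1024 * M) l) a
  have t4 := sd_triangle x a (zpt x (2048 * M) l)
  rw [sd_comm a] at t4
  have t5 := sd_triangle x (zpt x (2048 * M) l) w
  -- hits
  obtain ⟨z₁, hz₁, w1⟩ := hLH c k _ (32 * M) S₁ hS₁ _ u p (DP.Con.symm hpu) (by omega) (by omega)
  obtain ⟨z₂, hz₂, w2⟩ := hLH c k _ (32 * M) S₁ hS₁ U a b hab (by omega) (by omega)
  obtain ⟨z₃, hz₃, w3⟩ := hLH c k _ (64 * M) S₂ hS₂ U b a hab.symm (by omega) (by omega)
  obtain ⟨z₄, hz₄, w4⟩ := hLH c k _ (64 * M) S₂ hS₂ _ q w hqw (by omega) (by omega)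
  -- the region
  have far : ∀ v, c v = k → 512 * M < sd x v → sd x v < 3584 * M →
      v ∈ {v | v ∈ HS true x n \ (N ∪ opp j (zpt x n) (n / 8) k) ∧ c v = k} := by
    intro v hv h1 h2
    refine ⟨⟨show sd x v ≤ n by omega, ?_⟩, hv⟩
    rintro (h | ⟨l', -, -, h⟩)
    · have h3 : sd x v ≤ 512 * M := hN h
      omega
    · have e1 := SE1_sd_zpt x n l'
      have e2 := sd_triangle x v (zpt x n l')
      rw [sd_comm v] at e2
      omega
  have hI : ({v | v ∈ HS true x (1024 * M) \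
      (N ∪ opp j (zpt x (1024 * M)) (1024 * M / 8) k) ∧ c v = k} : Set V) ⊆
      {v | v ∈ HS true x n \ (N ∪ opp j (zpt x n) (n / 8) k) ∧ c v = k} := by
    rintro v ⟨⟨hv1, hv2⟩, hv3⟩
    have hv1' : sd x v ≤ 1024 * M := hv1
    refine ⟨⟨show sd x v ≤ n by omega, ?_⟩, hv3⟩
    rintro (h | ⟨l', -, -, h⟩)
    · exact hv2 (Or.inl h)
    · have e1 := SE1_sd_zpt x n l'
      have e2 := sd_triangle x v (zpt x n l')
      rw [sd_comm v] at e2
      omega
  have hO : ({v | v ∈ HS true x n \ ((Dmark j x (2048 * M)).N k ∪ opp j (zpt x n) (n / 8) k) ∧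
      c v = k} : Set V) ⊆
      {v | v ∈ HS true x n \ (N ∪ opp j (zpt x n) (n / 8) k) ∧ c v = k} := by
    rintro v ⟨⟨hv1, hv2⟩, hv3⟩
    refine ⟨⟨hv1, ?_⟩, hv3⟩
    rintro (h | h)
    · have h4 : sd x v ≤ 512 * M := hN h
      apply hv2
      left
      left
      show sd x v < 2048 * M
      omega
    · exact hv2 (Or.inr h)
  have hS₁' : S₁ ⊆ {v | v ∈ HS true x n \ (N ∪ opp j (zpt x n) (n / 8) k) ∧ c v = k} := by
    intro v hv
    have h1 := GL_sub hS₁ v hv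
    have e1 := sd_triangle x v (zpt x (1024 * M) l)
    rw [sd_comm v] at e1
    have e2 := sd_triangle x (zpt x (1024 * M) l) v
    exact far v h1.2.2 (by omega) (by omega)
  have hS₂' : S₂ ⊆ {v | v ∈ HS true x n \ (N ∪ opp j (zpt x n) (n / 8) k) ∧ c v = k} := by
    intro v hv
    have h1 := GL_sub hS₂ v hv
    have e1 := sd_triangle x v (zpt x (2048 * M) l)
    rw [sd_comm v] at e1
    have e2 := sd_triangle x (zpt x (2048 * M) l) v
    exact far v h1.2.2 (by omega) (by omega)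
  have hU' : U ⊆ {v | v ∈ HS true x n \ (N ∪ opp j (zpt x n) (n / 8) k) ∧ c v = k} := by
    intro v hv
    obtain ⟨⟨g, hg, hgv⟩, hcv⟩ := hU1 v hv
    rw [List.mem_map] at hg
    obtain ⟨t, ht, rfl⟩ := hg
    rw [List.mem_range] at ht
    have h1 : 2 * t * M ≤ 2 * 512 * M := Nat.mul_le_mul_right _ (by omega)
    have e0 := SE1_sd_zpt x (1024 * M + 2 * t * M) l
    have e1 := sd_triangle x v (zpt x (1024 * M + 2 * t * M) l)
    rw [sd_comm v] at e1
    have e2 := sd_triangle x (zpt x (1024 * M + 2 * t * M) l) v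
    exact far v hcv (by omega) (by omega)
  have c1 : DP.Con {v | v ∈ HS true x n \ (N ∪ opp j (zpt x n) (n / 8) k) ∧ c v = k} p z₁ :=
    (DP.Con.mono hI hpu).trans (w1.mono hI)
  have c2 := (hLC c k _ _ S₁ hS₁ z₁ hz₁ z₂ hz₂).mono hS₁'
  have c3 : DP.Con {v | v ∈ HS true x n \ (N ∪ opp j (zpt x n) (n / 8) k) ∧ c v = k} z₂ z₃ :=
    ((w2.symm).trans (hab.trans w3)).mono hU'
  have c4 := (hLC c k _ _ S₂ hS₂ z₃ hz₃ z₄ hz₄).mono hS₂'
  have c5 : DP.Con {v | v ∈ HS true x n \ (N ∪ opp j (zpt x n) (n / 8) k) ∧ c v = k} z₄ w :=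
    ((w4.symm).trans hqw).mono hO
  exact (((c1.trans c2).trans c3).trans c4).trans c5

/-- One colour. -/
theorem GD_col (hLH : LH_stmt) (hLC : LC_stmt) (hCH1 : CH1_stmt) (c : V → Bool) (k : Bool) (j : ℕ)
    (x : V) (n M : ℕ) (D : Dat) (hj : j = 2 ∨ j = 4) (hM : 1 ≤ M) (hn : 4096 * M ≤ n)
    (hD : D.ok true x (512 * M))
    (hI : MrkC c j true x (1024 * M) D (zpt x (1024 * M)) (1024 * M / 64) (1024 * M / 8) k)
    (hO : MrkC c j true x n (Dmark j x (2048 * M)) (zpt x n) (n / 64) (n / 8) k)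
    (hL : ∀ l < j, kol l = k → (∃ S, Loop c k (zpt x (1024 * M) l) (32 * M) S) ∧
      (∃ S, Loop c k (zpt x (2048 * M) l) (64 * M) S) ∧
      Full c k M ((List.range (2 ^ 9 + 1)).map fun t => zpt x (1024 * M + 2 * t * M) l)) :
    MrkC c j true x n D (zpt x n) (n / 64) (n / 8) k := by
  have f1 : 1024 * M / 64 = 16 * M := by omega
  have f2 : 2048 * M / 64 = 32 * M := by omega
  unfold Dat.ok at hD
  simp only [if_true] at hD
  obtain ⟨hDI, hDN⟩ := hD
  -- one arm at the index `i`, with the patterns `σ`, `τ`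
  have key : ∀ (i l r : ℕ), l < j → kol l = k →
      (∃ p ∈ D.I i, ∃ u ∈ bd x (1024 * M), sd (zpt x (1024 * M) l) u ≤ 1024 * M / 64 ∧
        Conn c k (HS true x (1024 * M) \
          (D.N k ∪ opp j (zpt x (1024 * M)) (1024 * M / 8) k)) p u) →
      (∃ q ∈ (Dmark j x (2048 * M)).I l, ∃ w ∈ bd x n, sd (zpt x n r) w ≤ n / 64 ∧
        Conn c k (HS true x n \ ((Dmark j x (2048 * M)).N k ∪ opp j (zpt x n) (n / 8) k)) q w) →
      ∃ p ∈ D.I i, ∃ w ∈ bd x n, sd (zpt x n r) w ≤ n / 64 ∧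
        Conn c k (HS true x n \ (D.N k ∪ opp j (zpt x n) (n / 8) k)) p w := by
    rintro i l r hl hk ⟨p, hp, u, hu, hyu, hpu⟩ ⟨q, hq, w, hw, hyw, hqw⟩
    obtain ⟨h1, h2, h3⟩ := hL l hl hk
    have hq2 : sd (zpt x (2048 * M) l) q ≤ 2048 * M / 64 := hq.2
    rw [f2] at hq2
    rw [f1] at hyu
    exact ⟨p, hp, w, hw, hyw, GD_arm hLH hLC hCH1 c k j x n M l hM hn (D.N k) (hDN k) p u q w
      (hDI i hp) hw hyu hq2 hpu hqw h1 h2 h3⟩
  have hrot : ∀ i < j, kol i = k → (i + 2) % j < j ∧ kol ((i + 2) % j) = k := by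
    intro i hi hk
    refine ⟨Nat.mod_lt _ (by omega), ?_⟩
    rw [← hk]
    unfold kol
    have : (i + 2) % j % 2 = i % 2 := by
      rcases hj with rfl | rfl <;> omega
    rw [this]
  rcases hI with hI | hI
  · rcases hO with hO | hO
    · left
      intro i hi hk
      exact key i i i hi hk (hI i hi hk) (hO i hi hk)
    · right
      intro i hi hk
      exact key i i _ hi hk (hI i hi hk) (hO i hi hk)
  · rcases hO with hO | hO
    · right
      intro i hi hk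
      obtain ⟨h1, h2⟩ := hrot i hi hk
      exact key i _ _ h1 h2 (hI i hi hk) (hO _ h1 h2)
    · left
      intro i hi hk
      obtain ⟨h1, h2⟩ := hrot i hi hk
      have h3 := key i _ _ h1 h2 (hI i hi hk) (hO _ h1 h2)
      have h4 : ((i + 2) % j + 2) % j = i := by
        rcases hj with rfl | rfl <;> omega
      rw [h4] at h3
      exact h3

theorem GD (hLH : LH_stmt) (hLC : LC_stmt) (hCH1 : CH1_stmt) : GD_stmt := by
  intro c j x D i n gs hj hx hi hn hD hI hO hL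
  obtain ⟨M, hMdef⟩ : ∃ M, M = 2 ^ (i - 9) := ⟨_, rfl⟩
  have hM1 : 1 ≤ M := by rw [hMdef]; exact Nat.one_le_two_pow
  have e0 : 2 ^ i = 512 * M := by
    rw [hMdef, show (512 : ℕ) = 2 ^ 9 by norm_num, ← pow_add]; congr 1; omega
  have e1 : 2 ^ (i + 1) = 1024 * M := by
    rw [hMdef, show (1024 : ℕ) = 2 ^ 10 by norm_num, ← pow_add]; congr 1; omega
  have e2 : 2 ^ (i + 2) = 2048 * M := by
    rw [hMdef, show (2048 : ℕ) = 2 ^ 11 by norm_num, ← pow_add]; congr 1; omega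
  have e5 : 2 ^ (i + 3) = 4096 * M := by
    rw [hMdef, show (4096 : ℕ) = 2 ^ 12 by norm_num, ← pow_add]; congr 1; omega
  have e3 : 2 ^ (i - 4) = 32 * M := by
    rw [hMdef, show (32 : ℕ) = 2 ^ 5 by norm_num, ← pow_add]; congr 1; omega
  have e4 : 2 ^ (i - 3) = 64 * M := by
    rw [hMdef, show (64 : ℕ) = 2 ^ 6 by norm_num, ← pow_add]; congr 1; omega
  rw [e0] at hD
  rw [e1] at hI
  rw [e2] at hO
  rw [e5] at hn
  simp only [e1, e2, e3, e4, ← hMdef] at hL
  have hL' : ∀ k : Bool, ∀ l < j, kol l = k → (∃ S, Loop c k (zpt x (1024 * M) l) (32 * M) S) ∧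
      (∃ S, Loop c k (zpt x (2048 * M) l) (64 * M) S) ∧
      Full c k M ((List.range (2 ^ 9 + 1)).map fun t => zpt x (1024 * M + 2 * t * M) l) := by
    intro k l hl hk
    obtain ⟨h1, h2, h3, h4⟩ := hL l hl
    rw [h3, hk] at h4
    rw [hk] at h1 h2
    exact ⟨h1, h2, h4⟩
  exact ⟨GD_col hLH hLC hCH1 c true j x n M D hj hM1 hn hD hI.1 hO.1 (hL' true),
    GD_col hLH hLC hCH1 c false j x n M D hj hM1 hn hD hI.2 hO.2 (hL' false)⟩

end TP.K
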